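import Mathlib
import Pool.Agent.helper1.GR.Cong

/-!
# MP_2e0e07_nt: geometric origin is a question of congruences, over the absolute Galois group of a number field

Let `K`, `E` be number fields, `G_K = Gal(AlgebraicClosure K/K)` with the Krull topology, `v` the
finite places of `K` (`Pl K`), `q_v = nv K v` the norm, `frob K v ⊆ G_K` the set of the arithmetic
Frobenius elements. Let `P i v` (`i = 1, ..., r`) be polynomials over `ℤ` and
`Q v = X² - a_v X + d_v` polynomials over `E` (for the question: `K` imaginary quadratic, `P i v` the
Frobenius polynomials of the duals of cohomology groups of varieties over `K`, and `Q v` the Hecke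
polynomials of a Bianchi newform `f` without CM with coefficients in `E`), either of weight two
(`IsWeightTwo`, no condition on the `a_v`) or with a good set of places (`IsGoodSetK`, any weight:
ordinary at enough places). Let `V q i` be continuous representations of `G_K` over `ℤ_q`, for ALL
primes `q`, with Frobenius polynomials `P i v` (the `q`-adic cohomology of `X`), `p` one prime, `F` a
finite extension of `ℚ_p` which contains `E`, and `ρ` a continuous representation of `G_K` over the
integers of `F` with Frobenius polynomials `Q v`, irreducible on every open subgroup. Put
`t_v = a_v² / d_v`.

Theorem. The following are equivalent.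
* `DeterminedK`: on a set `S` of places of positive upper Dirichlet density the number `t_v` is, in
  the `p`-adic field `F` and up to finitely many values, determined by congruences between the
  polynomials of `X`: there is a `D` such that for every `ε > 0` there is a modulus `M` (any integer,
  also prime to `p`) such that among any `D + 1` places in `S` with the same `P i v` modulo `M`, two
  have values of `t_v` at distance at most `ε`.
* The field cut out by ALL the `V q i` (all primes `q` together, `fieldAll`) and the field cut out by
  `ad ρ` have an intersection of infinite degree over `K`.
* `Arises`: `ρ` is a subquotient of `V p i ⊗ F[Fin N]` for some `i` and some permutation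
  representation with open kernel: of the (dual) cohomology of `X ×_K Spec L`, `L` a finite etale
  `K`-algebra: `ρ` arises from the etale cohomology of `X`.
* Every realisation of the same polynomials, over any field of characteristic zero (for instance for
  every other prime), arises in this sense.

So if `f` does not come from `X`, then not even finitely many candidates for the value of `a_v² / d_v`
modulo every power of `p` can be read off from the number of points of `X` at `v` modulo any integers,
on any set of places of positive upper density; and the image of the Galois group of the field of
definition of the adelic cohomology of `X` under `ad ρ` is open.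

Proof. (1) Suppose that `ρ` does not arise. By `GeometricOrigin` (helper67/RG, helper55/FLD) the
product of the common kernel `M` of the `V p i` and of `ker (ad ρ)` is open. Let `Z` be the common
kernel of all the `V q i`. The image under `ad ρ` of the closed normal subgroup `Z` is finite or open
(row SIM: Lie algebras of compact `p`-adic groups). Suppose that it is finite. Then there is an open
subgroup `M'` of `M` such that `ad ρ (M')` is pro-`p` and `ad ρ` is trivial on `M' ∩ Z`. Every finite
quotient of `ad ρ (M')` is, by compactness, a quotient of a Sylow `p`-subgroup of a finite quotient of
the image of `M'` under finitely many `V q i` with `q ≠ p`. As the kernel of the reduction of `V q i`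
modulo `q` is pro-`q`, this Sylow subgroup is in a product of groups `GL_n` over fields of
characteristics `q ≠ p`, and so satisfies the law `[x ^ n!, y ^ n!] = 1` (`p`-groups are monomial
there). So `ad ρ (M')` satisfies this law (`LPC`), which is impossible as `ρ` is irreducible on every
open subgroup (`LWC`). So the image of `Z` is open (`FIX`). (2) If the image of `Z` is open then there
are `z_0, z_1, ...` in `Z` with different images in `PGL₂` (`TIN`), and for `a ≠ b` the set of the `g`
with `t (z_a g) = t (z_b g)`, `t = tr² / det` of `ρ`, is a null set (`NUL`). If `t_v` were determined
by congruences on a set of positive upper density, there would, by Chebotarev's density theorem, be a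
closed set `C` of positive Haar measure such that among any `D + 1` elements of `C` in one coset of
`Z` two have the same `t` (`PST`, `CLO`, compactness); the translates of `C` by the `z_a` give a
contradiction (`MEA`). (3) If `ρ` arises then on an open subgroup `t` is, up to finitely many values,
a function of the characteristic polynomials of the `V p i` (`ROT`), and compactness gives the
congruences modulo powers of `p` for all places with a Frobenius element in this subgroup, which have
positive density. (4) By `GeometricOrigin` the third condition does not depend on the realisation.
Chebotarev's density theorem is proved in Lean (`Pool.Agent.CD.CHD_all`): no theorem from the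
literature is a hypothesis.
-/

namespace Pool.Agent.Results.MP_2e0e07_nt.CongruenceCriterion

open Matrix Polynomial Pool.Agent.GO Pool.Agent.AR Pool.Agent.RG Pool.Agent.DS Pool.Agent.AX
  Pool.Agent.GK Pool.Agent.GR

theorem result {K E : Type} [Field K] [NumberField K] [Field E] [NumberField E] {r : ℕ}
    {n : Fin r → ℕ} (P : Fin r → Pl K → ℤ[X]) (Q : Pl K → E[X]) (w : Fin r → ℕ)
    -- weight two, or a good set of places
    (hO : IsWeightTwo K n (fun i v => (P i v).map (Int.castRingHom E)) Q w ∨
      ∃ (s : ℕ) (O : Set (Pl K)),
        IsGoodSetK K n (fun i v => (P i v).map (Int.castRingHom E)) Q s w O)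
    -- the representations over the rings `ℤ_q`, for all primes `q`
    (V : (q : ℕ) → [Fact q.Prime] → (i : Fin r) → GalK K →* Matrix (Fin (n i)) (Fin (n i)) ℤ_[q])
    (hV : ∀ (q : ℕ) [Fact q.Prime] (i : Fin r), Continuous (V q i))
    (hch : ∀ (q : ℕ) [Fact q.Prime], ∃ T : Set (Pl K), T.Finite ∧
      ∀ v ∉ T, ∀ s ∈ frob K v, ∀ i, (V q i s).charpoly = (P i v).map (Int.castRingHom ℤ_[q]))
    -- one `p`-adic realisation
    (p : ℕ) [Fact p.Prime] (F Ω : Type) [NormedField F] [NormedAlgebra ℚ_[p] F]
    [FiniteDimensional ℚ_[p] F] [Field Ω] [IsAlgClosed Ω] [CharZero Ω] [Algebra F Ω]
    [TopologicalSpace Ω] [IsTopologicalRing Ω] [T2Space Ω] (ι : E →+* F)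
    (ρ : GalK K →* Matrix (Fin 2) (Fin 2) F) (hρ : Continuous ρ) (hint : ∀ g a b, ‖ρ g a b‖ ≤ 1)
    (hR : IsRealisation (frob K) (fun i v => (P i v).map (Int.castRingHom E)) Q
      ((algebraMap F Ω).comp ι)
      (fun i => mapHom ((algebraMap F Ω).comp ((algebraMap ℚ_[p] F).comp PadicInt.Coe.ringHom))
        (V p i))
      (bc (algebraMap F Ω) ρ)) :
    List.TFAE [
      -- (1) `t_v` is determined by congruences, on a set of places of positive upper density
      DeterminedK K P Q ι,
      -- (2) the fields, all primes at once
      ¬ FiniteDimensional K (fieldAll V ⊓ fieldAd ρ : IntermediateField K (AlgebraicClosure K)),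
      -- (3) `ρ` arises from the `V p i`
      Arises (fun i => mapHom
          ((algebraMap F Ω).comp ((algebraMap ℚ_[p] F).comp PadicInt.Coe.ringHom)) (V p i))
        (bc (algebraMap F Ω) ρ),
      -- (4) every realisation arises
      ∀ (F' : Type) [Field F'] [IsAlgClosed F'] [CharZero F'] [TopologicalSpace F']
        [IsTopologicalRing F'] [T2Space F'] (ι' : E →+* F')
        (V' : (i : Fin r) → GalK K →* Matrix (Fin (n i)) (Fin (n i)) F')
        (ρ' : GalK K →* Matrix (Fin 2) (Fin 2) F'),
        IsRealisation (frob K) (fun i v => (P i v).map (Int.castRingHom E)) Q ι' V' ρ' →
        Arises V' ρ'] :=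
  cong P Q w hO V hV hch p F Ω ι ρ hρ hint hR

end Pool.Agent.Results.MP_2e0e07_nt.CongruenceCriterion
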