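import Pool.Agent.helper21.OE.StmP

/-!
# MP_2e0e07_nt: ordinary Bianchi newforms of `ℓ`-power level over the norm-Euclidean imaginary
quadratic fields are base changes from `ℚ`

`K = ℚ(√D)`, `D = -4, -8, -3, -7, -11`, with ring of integers `Oz d t = ℤ[ω]`, `ω² = tω - d`. `R` is a
discrete valuation ring with fraction field `L`, with a map `f` from the ring of integers and with the odd
prime `ℓ` in the maximal ideal. `IsOrd L f ℓ F k r χ φ`: `φ` is in the ordinary part at `ℓ` (all eigenvalues
of the Hecke operator at `ℓ` are units) of the modular symbols over `L` of weight `k + 2`, level `Γ₀(ℓ^r)` and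
character `χ`, `χ^c = χ`. `conjS` is complex conjugation on modular symbols. We prove that `conjS` is the
identity on the ordinary part (`ConjFixes`): for all weights, all levels `ℓ^r` and all characters at once, for
`ℓ ≤ 31` (with a short list of exceptional classes of the weight and character), and for all `ℓ` for the
small classes. So every ordinary newform `g` of level dividing a power of `ℓ` in these cases satisfies
`g^c = g`: it is a base change from `ℚ` and its Galois representations arise from the étale cohomology of
Kuga-Sato varieties.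
-/

namespace Pool.Agent.Results.MP_2e0e07_nt.OrdinaryBaseChange

open Pool.Agent.OE

theorem result (d t : ℤ) (hK : IsEuc d t) (ℓ : ℕ) (hℓ : ℓ.Prime) (hℓ2 : ℓ ≠ 2)
    (F : Finset (GO d t)) (hF : IsReps ℓ F)
    {R L : Type} [CommRing R] [IsDomain R] [IsDiscreteValuationRing R] [Field L] [Algebra R L]
    [IsFractionRing R L] (f : Oz d t →+* R) (hf : ((ℓ : ℕ) : R) ∈ IsLocalRing.maximalIdeal R)
    (k r : ℕ) (χ : Oz d t →* R) (hχ : IsChar ℓ r χ) :
    -- (1) the class of the weight and the character
    (χ (-1) = 1 → ∃ j, 1 ≤ j ∧ j ≤ ℓ - 1 ∧ InClass f ℓ k χ j) ∧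
    -- (2) a criterion on the level one and the weight `j + 2` modulo the maximal ideal
    (∀ j, 1 ≤ j → InClass f ℓ k χ j → ConjFixesMod f ℓ F j → ConjFixes L f ℓ F k r χ) ∧
    -- (3) all the cases with `ℓ ≤ 31`
    (ℓ ≤ 31 → (∀ j, Exc d t ℓ j → ¬ InClass f ℓ k χ j) → ConjFixes L f ℓ F k r χ) ∧
    -- (4) the small classes, for all the unramified primes `ℓ > j`
    (∀ j, IsUni d t ℓ j → InClass f ℓ k χ j → ConjFixes L f ℓ F k r χ) ∧
    -- (5) invariant eigenvectors have the same eigenvalue for a Hecke operator and its conjugate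
    SameEigenvalues ((algebraMap R L).comp f) :=
  STM_main d t hK ℓ hℓ hℓ2 F hF f hf k r χ hχ

end Pool.Agent.Results.MP_2e0e07_nt.OrdinaryBaseChange
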