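import Mathlib
import Pool.Agent.helper16.GK.RDefs2
import Pool.Agent.helper82.LB.Final

/-!
# MP_2e0e07_nt: polynomial adelic open image for the pair (f, X), over the absolute Galois group

No hypothesis is made on the Galois group: `K` is a number field, `GalK K = Gal(AlgebraicClosure K/K)`
its absolute Galois group with the Krull topology, `Pl K` the set of its finite places, `nv K v` the
norm of `v`, `frob K v` the set of the arithmetic Frobenius elements at all prime ideals over `v` of
the ring of all algebraic integers, `inert K v` the union of the inertia groups at these ideals. The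
theorem of Chebotarev, also with an effective bound (polynomial in the discriminant), is proved in
Lean in the files which are imported here, and so is Larsen's theorem in rank two (infinitely many
primes are big, see below).

The form: `E` is a number field of degree at most `d`, `Q v = X² - a_v X + d_v` a polynomial over the
integers of `E` (the Hecke polynomials of a Bianchi newform `f` without CM, `d_v ∈ ℤ`). `J` is a set of
indices, `p j` different primes, `F j` an extension of `ℚ_[p j]` of degree at most `d`,
`ρ j : GalK K → GL₂` continuous with integral entries over `F j` and with characteristic polynomials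
`Q v`, and `S j` is its reduction over an algebraically closed field `κ j` of characteristic `p j`
(`IsMember`; in particular `ρ j` is irreducible on all open subgroups). The index `j` is `Big` if
`S j` is irreducible and `p j` divides the order of its image. The hypothesis is that either all but
finitely many primes are of the form `p j` (then it is proved that infinitely many `j` are big), or
infinitely many `j` are big.

The variety: `P i v`, `i < r`, are polynomials over `ℤ` of degree `n i`, one of them `X - d_v` (the
Frobenius polynomials of the duals of the `H^i(X)` and of `det ρ`), and, for EVERY prime `q`, `V q i`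
is a continuous representation over `ℤ_[q]` with characteristic polynomials `P i v` (`IsSystem`).

The conductor: `T` is a finite set of places, outside of which all this holds, all conjugates of the
roots of the `P i v` and of `Q v` have absolute value at most `(nv K v) ^ w` (`IsPolys`), and, for one
fixed prime `p₀`, the representations `V p₀ i` and a `p₀`-adic representation `ρ₀` with the
characteristic polynomials `Q v`, over an extension of `ℚ_[p₀]` of degree at most `d`, are unramified
at `v` if `p₀` does not divide `nv K v`. `N` is the product of the absolute value of the discriminant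
of `K` and of the norms of the places in `T` (the bad places of `f` and `X`).

Theorem. There are numbers `c₁`, `c₂`, which depend only on the dimensions `n i`, on `w`, `p₀` and on
the bounds `h`, `d` of the degrees of `K` and `E`, but NOT on `K`, NOT on `f` and NOT on `X`, and for
every `f` there are numbers `c j`, equal to `1` for all big `j` with `p j > 2 d + 1`, such that for all
`X` one of the following holds:
* `ComesFrom` (`f` comes from `X`): all realisations of `(P, Q)` arise from `P` (`ad⁰ ρ` is on an open
  subgroup a subquotient of a tensor construction of `V = ⊕ V i`, and `ρ` itself is a subquotient of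
  some `V i ⊗ F[Fin N]` if `f` has weight two and the weights of the `V i` of dimension at least two
  are at most one); at EVERY place `v ∉ T` the quotient of the roots of `Q v` is a quotient of two roots of the product of the `P i v`;
  `K(ad (ρ j))` and `K(V (p j))` have an intersection of infinite degree for all `j`; and for EVERY big
  `j` with `p j ≠ 2` the field `K(ad (S j))` is contained in the field cut out by `V (p j)` modulo `p j`;
* `Independent`: no realisation of `(P, Q)` arises; the relation between the roots fails at a place
  `v ∉ T` with `nv K v ≤ c₁ * N ^ c₂`, for all embeddings of `E`; and `OpenImage`: the index of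
  `cross V ρ j` is finite for every `j`,
  and for every big `j` with `p j > c₁ * N ^ c₂` it is at most two and `K(ad (S j))` is not contained
  in the field cut out by `V (p j)` modulo `p j`;
  THE PRODUCT of the indices of `cross V ρ j` over all big `j` with `p j > 2 d + 1` for which the index
  is greater than two is at most `c₁ * N ^ c₂`;
  and if `M = ∏ (p j) ^ (k j)` is such that the common kernel `kerAll V` of the `V q i`, for all primes
  `q`, is contained for every `j` in the set of the `g` for which `ρ j g` is scalar modulo
  `(p j) ^ (k j)`, i.e. if `K(ad ρ mod M)` is contained in the field of all torsion points of the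
  cohomology of `X`, then `M ≤ (∏ c j) * c₁ * N ^ c₂`;
  and for any `g j ∈ cross V ρ j` there is one `z ∈ kerAll V` with `ad (ρ j) (z) = ad (ρ j) (g j)` for
  all `j`.

Here `cross V ρ j` is the subgroup generated by `adKer (ρ j)` and by the elements of the common kernel
`kerAll V` of the `V q i`, for ALL primes `q`, which are in `adKer (ρ k)` for all `k ≠ j`: the group of
the intersection of the field `K(ad (ρ j))` with the compositum of all the fields cut out by `X` (at all
primes) and by the other `ad (ρ k)`.

So: either `f` comes from `X` or the image of Galois on `f` and `X` together is open in the product of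
the images, with an index which is, apart from quadratic intersections and at the big primes
`p j > 2 d + 1`, bounded by a POLYNOMIAL in the conductor. In particular (vertical criterion, one
prime `p`, `X` moves): `f` comes from geometry if and only if for one prime `p` (any) there are a
number `n`, infinitely many `m` and varieties `X_m` with Betti numbers at most `n` and bad places
with product of the norms at most `p ^ (δ m)` such that `K(ad ρ_{f,p} mod p ^ m)` is contained in
the field of the cohomology of `X_m` (`δ` depends on `n` and `d`); and similarly for any sequence of
moduli `M`, with the bound `M ^ δ`.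
-/

namespace Pool.Agent.Results.MP_2e0e07_nt.PolynomialOpenImage

open Matrix Polynomial Pool.Agent.GO Pool.Agent.AR Pool.Agent.RG Pool.Agent.HZ Pool.Agent.DS
  Pool.Agent.AX Pool.Agent.UM Pool.Agent.PU Pool.Agent.GK NumberField

theorem result
    -- the numbers on which the constants depend
    (r : ℕ) (n : Fin r → ℕ) (i₀ : Fin r) (h d w p₀ : ℕ) [Fact p₀.Prime] :
    ∃ c₁ c₂ : ℕ,
    -- the field and the form: the polynomials `Q v`, the `ρ j` and their reductions
    ∀ {K E J : Type} [Field K] [NumberField K] (_ : Module.finrank ℚ K ≤ h)
    [Field E] [NumberField E] (_ : Module.finrank ℚ E ≤ d) (Q : Pl K → (𝓞 E)[X])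
    (p : J → ℕ) [∀ j, Fact (p j).Prime] (_ : Function.Injective p)
    (F κ : J → Type) [∀ j, NormedField (F j)] [∀ j, NormedAlgebra ℚ_[p j] (F j)]
    [∀ j, FiniteDimensional ℚ_[p j] (F j)] (_ : ∀ j, Module.finrank ℚ_[p j] (F j) ≤ d)
    [∀ j, Field (κ j)] [∀ j, IsAlgClosed (κ j)] [∀ j, CharP (κ j) (p j)]
    (ι : ∀ j, E →+* F j) (red : ∀ j, F j → κ j) (ρ : ∀ j, Rep2 K (F j)) (S : ∀ j, Rep2 K (κ j))
    (_ : {j | Big (p j) (S j)}.Infinite ∨ {q : ℕ | q.Prime ∧ ∀ j, p j ≠ q}.Finite),
    ∃ c : J → ℕ, (∀ j, Big (p j) (S j) → 2 * d + 1 < p j → c j = 1) ∧
    -- the variety: the polynomials `P i v`, the bad places, the conductor, the `V q i`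
    ∀ (P : Fin r → Pl K → ℤ[X]) (T : Finset (Pl K)) (N : ℕ)
    (_ : N = (discr K).natAbs * ∏ v ∈ T, nv K v) (_ : IsPolys n i₀ w (nv K) T P Q)
    (V : ZSys K n) (_ : IsSystem (frob K) (nv K) T P V)
    -- the `p₀`-adic representation `ρ₀`, and the ramification
    (F₀ : Type) [NormedField F₀] [NormedAlgebra ℚ_[p₀] F₀] [FiniteDimensional ℚ_[p₀] F₀]
    (_ : Module.finrank ℚ_[p₀] F₀ ≤ d) (ι₀ : E →+* F₀) (ρ₀ : Rep2 K F₀)
    (_ : HasPolys (frob K) (nv K) T p₀ Q ι₀ ρ₀) (_ : Unramified T V p₀ ρ₀)
    -- the `ρ j` belong to the form
    (Ω : J → Type) [∀ j, Field (Ω j)] [∀ j, IsAlgClosed (Ω j)]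
    [∀ j, CharZero (Ω j)] [∀ j, Algebra (F j) (Ω j)] [∀ j, TopologicalSpace (Ω j)]
    [∀ j, IsTopologicalRing (Ω j)] [∀ j, T2Space (Ω j)]
    (_ : ∀ j, IsMember (frob K) (nv K) T P Q (p j) (V (p j)) (Ω j) (ι j) (red j) (ρ j) (S j)),
      ComesFrom P Q T V p ρ S ∨ Independent P Q T V p ρ S d c (c₁ * N ^ c₂) :=
  Pool.Agent.LB.RMAIN3_t r n i₀ h d w p₀

end Pool.Agent.Results.MP_2e0e07_nt.PolynomialOpenImage
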